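import Mathlib
import Pool.Agent.P.MP_f55c5e_co.Ch.Suff
import Pool.Agent.P.MP_f55c5e_co.Ch.Nec

set_option autoImplicit false

namespace Pool.Agent.Results.MP_f55c5e_co.AllRoots

open Pool.Agent.P.MP_f55c5e_co.Ch in
/-- For a complex number α and an integer n, the number α + n is a chromatic root if and only if
α is an algebraic integer and β + n is 0, 1 or larger than 32/27 for each real conjugate β of α. -/
theorem result (α : ℂ) (n : ℤ) :
    (∃ m : ℕ, ∃ G : SimpleGraph (Fin m), ∃ p : Polynomial ℤ,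
        (∀ q : ℕ, p.eval (q : ℤ) = (Nat.card (G.Coloring (Fin q)) : ℤ)) ∧
        Polynomial.aeval (α + (n : ℂ)) p = 0) ↔
      IsIntegral ℤ α ∧
        ∀ β : ℝ, Polynomial.aeval (β : ℂ) (minpoly ℚ α) = 0 →
          β + n = 0 ∨ β + n = 1 ∨ 32 / 27 < β + n := by
  have e : minpoly ℚ (α + (n : ℂ)) =
      (minpoly ℚ α).comp (Polynomial.X - Polynomial.C (n : ℚ)) := by
    simpa using minpoly.add_algebraMap α (n : ℚ)
  have hn : IsIntegral ℤ (n : ℂ) := isIntegral_intCast n
  constructor
  · intro h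
    obtain ⟨h1, h2⟩ := nec h
    refine ⟨by simpa using h1.sub hn, fun β hβ => h2 (β + n) ?_⟩
    rw [e, Polynomial.aeval_comp]
    simpa using hβ
  · rintro ⟨h1, h2⟩
    refine suff (h1.add hn) fun β hβ => ?_
    rw [e, Polynomial.aeval_comp] at hβ
    simpa using h2 (β - n) (by simpa using hβ)

end Pool.Agent.Results.MP_f55c5e_co.AllRoots
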